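import Mathlib
import Pool.Agent.Helper32.Curve
import Pool.Agent.Helper32.AS36

/-!
# Every finite p-group has a subdirect power that is the second ramification group of a big action

The definitions used in the statement (`IsFunctionField`, `Place`, `genus`, `FixesPlace`,
`ramGroup`, `IsBigAction`, `FreeOutside`, `IsSubdirectPower`, `HasBigAction`) are in
`Pool/Agent/Helper32/Curve.lean`.
-/

namespace Pool.Agent.Results.MP_aa31c6_ag.G2SubdirectPower

open Pool.Agent.Helper32

universe u w

/-- Let `p` be a prime, `k` an algebraically closed field of characteristic `p`, `Q` a finite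
`p`-group with more than two elements and `M` a natural number. Then there are a function field
`F / k`, a group `G` of automorphisms of `F / k` and a place `P` such that `G` is a big action at
`P` (so `F` has genus at least `2`, `G` is a finite `p`-group fixing `P`, and condition (N) holds),
`|G| > M * genus`, no non-trivial element of `G` fixes another place, and the second ramification
group `G_2` at `P` is a subdirect product of finitely many copies of `Q`. -/
theorem result (p : ℕ) [Fact p.Prime] (k : Type u) [Field k] [IsAlgClosed k] [CharP k p]
    (Q : Type w) [Group Q] [Finite Q] (hQ : IsPGroup p Q) (hQ2 : 2 < Nat.card Q) (M : ℕ) :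
    ∃ (F : Type u) (_ : Field F) (_ : Algebra k F), HasBigAction k F p M Q := by
  have hC1 : CharP (RatFunc k) p :=
    charP_of_injective_algebraMap (algebraMap k (RatFunc k)).injective p
  have hC2 : CharP (AlgebraicClosure (RatFunc k)) p :=
    charP_of_injective_algebraMap (algebraMap (RatFunc k) (AlgebraicClosure (RatFunc k))).injective p
  let _ : Algebra (ZMod p) (AlgebraicClosure (RatFunc k)) := ZMod.algebra _ p
  obtain ⟨F, G, P, h1, h2, h3, h4, h5, h6, h7, h8, h9⟩ := main_construction (p := p) (k := k)
    (K := RatFunc k) (Ω := AlgebraicClosure (RatFunc k)) (x := RatFunc.X) (base_level p)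
    (gen_ratFunc _) trans_ratFunc lin_ratFunc res_ratFunc RatFunc.algebraMap_X.symm
    RatFunc.transcendental_X (fun y => by
      have h1 : IntermediateField.adjoin k {(RatFunc.X : RatFunc k)} = ⊤ := by
        exact RatFunc.adjoin_X (K := k)
      rw [h1]
      trivial) Q hQ hQ2 M
  exact ⟨F, inferInstance, inferInstance, G, P, ⟨h1, h2, h3, h4, h7, h5⟩, h6, h8, h9⟩

end Pool.Agent.Results.MP_aa31c6_ag.G2SubdirectPower
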