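import Mathlib
import Pool.Agent.Helper32.Curve
import Pool.Agent.BAC.QDefs
import Pool.Agent.BAC.Main

/-!
# The quotients `G / γ_p (G)` of the groups of big actions

The definitions used in the statement are in `Pool/Agent/Helper32/Curve.lean`
(`IsFunctionField`, `Place`, `genus`, `FixesPlace`, `ramGroup`, `IsBigAction`) and in
`Pool/Agent/BAC/QDefs.lean` (`gammaP`, `IsBigGroup`, `IsBigQuotient`); `commutator` is Mathlib's.
-/

namespace Pool.Agent.Results.MP_aa31c6_ag.QuotientsBelowP

open Pool.Agent.Helper32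

universe u w

/-- Let `p ≥ 3` be a prime, `k` an algebraically closed field of characteristic `p` and `Q` a
finite group. The following are equivalent: (1) `Q` is isomorphic to `G / γ_p (G)` for a big action
`(F, G, P)` over `k`; (2) `γ_p (Q) = 1` and `Q` is isomorphic to the group `G` of a big action
`(F, G, P)` over `k`; (3) `γ_p (Q) = 1`, `Q` is not abelian and `q ^ p = 1` for all `q` in `Q`. -/
theorem result (p : ℕ) [Fact p.Prime] (hp3 : 3 ≤ p) (k : Type u) [Field k] [IsAlgClosed k]
    [CharP k p] (Q : Type w) [Group Q] [Finite Q] : List.TFAE [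
      BAC.IsBigQuotient p k Q,
      BAC.gammaP p Q = ⊥ ∧ BAC.IsBigGroup p k Q,
      BAC.gammaP p Q = ⊥ ∧ commutator Q ≠ ⊥ ∧ ∀ q : Q, q ^ p = 1] :=
  BAC.mainC p hp3 k Q

end Pool.Agent.Results.MP_aa31c6_ag.QuotientsBelowP
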