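import Mathlib
import Pool.Agent.Helper32.Curve
import Pool.Agent.BAC.Main

/-!
# The second ramification groups of order `p ^ n`, `n ≤ p - 2`, of big actions

The definitions used in the statement (`IsFunctionField`, `Place`, `genus`, `FixesPlace`,
`ramGroup`, `IsBigAction`) are in `Pool/Agent/Helper32/Curve.lean`; `commutator` is Mathlib's.
-/

namespace Pool.Agent.Results.MP_aa31c6_ag.SmallSecondGroups

open Pool.Agent.Helper32

universe u w

/-- Let `p` be a prime, `k` an algebraically closed field of characteristic `p` and `H` a group of
order `p ^ n` with `n ≤ p - 2`. There is a big action `(F, G, P)` over `k` (so `F / k` is a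
function field of genus at least `2`, `G` is a finite `p`-group of automorphisms that fixes the
place `P`, and condition (N) holds) whose second ramification group `G_2` is isomorphic to `H` if
and only if `H` is not trivial and is isomorphic to the commutator subgroup of a finite group all
of whose elements have `p`-th power `1`. -/
theorem result (p : ℕ) [Fact p.Prime] (k : Type u) [Field k] [IsAlgClosed k] [CharP k p]
    (H : Type w) [Group H] [Finite H] (n : ℕ) (hH : Nat.card H = p ^ n) (hn : n + 2 ≤ p) :
    (∃ (F : Type u) (_ : Field F) (_ : Algebra k F) (G : Subgroup (F ≃ₐ[k] F))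
      (P : Place k F), IsBigAction p G P ∧ Nonempty (ramGroup G P 2 ≃* H)) ↔
      Nontrivial H ∧ ∃ (Γ : Type) (_ : Group Γ) (_ : Finite Γ), (∀ γ : Γ, γ ^ p = 1) ∧
        Nonempty (commutator Γ ≃* H) :=
  BAC.mainA p k H n hH hn

end Pool.Agent.Results.MP_aa31c6_ag.SmallSecondGroups
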